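import Pool.Agent.UL6.Stmts
import Pool.Agent.Helper27_UL5.HMX
import Pool.Agent.Helper74_UL5.PKA
import Pool.Agent.Helper77_UL5.CAP
import Pool.Agent.Helper46_UL5.SEL

/-!
Squad UL6 (MP_c7c9bf_co), row SEG: selection of the direction, first part.
-/

set_option autoImplicit false

namespace Pool.Agent.UL6.H46

open MeasureTheory Set Pool.Agent.UL3 Pool.Agent.UL4 Pool.Agent.UL5 Pool.Agent.UL5.H46

theorem seg (hchg : ChgStmt) (hchc : ChcStmt) : SegStmt := by
  intro C w m r hC hw hm hm2 hr hr3 hrw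
  obtain ⟨_, _, hHc, hHp, hHh⟩ := Pool.Agent.UL5.H27.hmx C hC
  have h0i : (0 : ℝ × ℝ) ∈ interior C := hC.zero_mem
  have hne : ∀ u : ℝ × ℝ, u ∉ interior C → u ≠ 0 := fun u hu h0 => hu (h0 ▸ h0i)
  obtain ⟨u₁, hu₁, hu₁', hu₁3⟩ :=
    Pool.Agent.UL5.H74.pka (Pool.Agent.UL5.H77.cap Pool.Agent.UL5.H27.hmx) C hC
  have hH1 := hHp u₁ (hne u₁ hu₁')
  have hA : 0 < ar C := by linarith
  have h2m : 0 < 2 - m := by linarith
  by_contra hcon
  rw [not_or] at hcon
  obtain ⟨hno, hcon⟩ := hcon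
  simp only [not_forall, not_lt] at hcon
  obtain ⟨u₀, hu₀, hu₀', hu₀A⟩ := hcon
  have hclaim : ∃ u : ℝ × ℝ, u ∈ C ∧ u ∉ interior C ∧ 4 * r * Hm C u ≤ ar C ∧
      (2 - m) * ar C ≤ 4 * w * Hm C u := by
    by_cases h1 : (2 - m) * ar C ≤ 4 * w * Hm C u₁
    · refine ⟨u₁, hu₁, hu₁', ?_, h1⟩
      have : r * Hm C u₁ ≤ 3 / 4 * Hm C u₁ := mul_le_mul_of_nonneg_right hr3 hH1.le
      linarith
    · rw [not_le] at h1
      have hpre : IsPreconnected ({(0 : ℝ × ℝ)}ᶜ) :=
        (isConnected_compl_singleton_of_one_lt_rank rank_lt 0).isPreconnected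
      have hcont : ContinuousOn (fun x : ℝ × ℝ => Hm C x / gauge C x) {(0 : ℝ × ℝ)}ᶜ := by
        apply ContinuousOn.div hHc.continuousOn (continuous_gauge hC.cvx (nhd hC)).continuousOn
        intro x hx
        exact (gau_pos hC hx).ne'
      have hmem : (2 - m) * ar C / (4 * w) ∈
          Icc (Hm C u₁ / gauge C u₁) (Hm C u₀ / gauge C u₀) := by
        rw [gau_bd hC hu₁ hu₁', gau_bd hC hu₀ hu₀', div_one, div_one]
        constructor
        · rw [le_div_iff₀ (by positivity)]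
          linarith
        · rw [div_le_iff₀ (by positivity)]
          linarith
      obtain ⟨x, hx, hxe⟩ := hpre.intermediate_value (hne u₁ hu₁') (hne u₀ hu₀') hcont hmem
      have hx0 : x ≠ 0 := hx
      have hxe' : Hm C x / gauge C x = (2 - m) * ar C / (4 * w) := hxe
      obtain ⟨hu, hu'⟩ := bd_gau hC hx0
      have hHu : Hm C ((gauge C x)⁻¹ • x) = (2 - m) * ar C / (4 * w) := by
        rw [hHh _ _ (inv_nonneg.2 (gau_pos hC hx0).le), ← hxe']
        rw [div_eq_inv_mul]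
      refine ⟨(gauge C x)⁻¹ • x, hu, hu', ?_, ?_⟩
      · rw [hHu]
        have h2 : 4 * r * ((2 - m) * ar C / (4 * w)) = r * (2 - m) * ar C / w := by
          field_simp
        rw [h2, div_le_iff₀ hw]
        have := mul_le_mul_of_nonneg_right hrw hA.le
        linarith
      · rw [hHu]
        apply le_of_eq
        field_simp
  obtain ⟨u, hu, hu', hur, huw⟩ := hclaim
  rcases hchc C u (m / 4 * ar C) w hC hu hu' hw with ⟨q, hq, hqs⟩ | ⟨p, l, hp, hpl, hcp, hl⟩
  · exact hno ⟨u, q, hu, hu', hur, hq, hqs⟩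
  · have h3 := hchg C u p l hC hu hu' hp (by rw [hcp]; positivity) (by linarith) hpl
    rw [hcp] at h3
    have h4 : Hm C u * (2 * w) < Hm C u * l :=
      mul_lt_mul_of_pos_left hl (hHp u (hne u hu'))
    linarith

end Pool.Agent.UL6.H46
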